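import Pool.Agent.H8.TD.Targets

/-!
# Zariski dense orbits in dimension three: row NRF
-/

set_option autoImplicit false

open MvPolynomial
open Pool.Agent.H12.ZD (pmap v O Res DenseOrbit NoInv)
open Pool.Agent.H18.HIT
open Pool.Agent.H8.ZA (HFam Const NA sz)
open Pool.Agent.H8.TD

namespace Pool.Agent.H4.TD

theorem pf_NRF : T_NRF := by
  intro κ R _ _ _ _ _ _ _ hinj S hS
  classical
  have h1 : FaithfulSMul (Polynomial κ) R := (faithfulSMul_iff_algebraMap_injective _ _).mpr hinj
  have h2 : Module.IsTorsionFree (Polynomial κ) R := inferInstance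
  have h3 : Module.Free (Polynomial κ) R := inferInstance
  let b := Module.Free.chooseBasis (Polynomial κ) R
  have hI : Ideal.span {S} ≠ (⊥ : Ideal R) := Ideal.span_singleton_eq_bot.not.2 hS
  have hfin : ∀ i, Module.Finite κ (Polynomial κ ⧸
      Ideal.span ({(Ideal.span {S}).smithCoeffs b hI i} : Set (Polynomial κ))) :=
    fun i => PowerBasis.finite <| AdjoinRoot.powerBasis <| Ideal.smithCoeffs_ne_zero b _ hI i
  refine ⟨?_, finrank_quotient_span_eq_natDegree_norm b hS⟩
  exact Module.Finite.equiv (Ideal.quotientEquivDirectSum κ b hI).symm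

end Pool.Agent.H4.TD
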